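import Pool.Agent.Helper9.RC2.Goals
import Pool.Agent.Helper32.RC.CutDown
import Pool.Agent.Helper49.ZR.RkS
import Pool.Agent.Helper89.ZR.Pert

/-!
# MP_b55b7c_an, project RC2, packet STP
-/

open scoped ENNReal NNReal InnerProductSpace ComplexOrder
open Filter Topology

attribute [-instance] CStarMatrix.instAlgebra CStarMatrix.instModule CStarMatrix.instSMul
  CStarMatrix.instMulAction CStarMatrix.instDistribMulAction

set_option linter.unusedSectionVars false

noncomputable section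
namespace Pool.Agent.Helper71.RC2.STP
open RC
universe u

variable {A : Type u} [CStarAlgebra A] [PartialOrder A] [StarOrderedRing A]
variable {ι κ μ ν : Type} [Fintype ι] [DecidableEq ι] [Fintype κ] [DecidableEq κ]
  [Fintype μ] [DecidableEq μ] [Fintype ν] [DecidableEq ν]

theorem conj_self {c : CStarMatrix ν ν A} (hc : IsSelfAdjoint c) : c.conjTranspose = c :=
  hc.star_eq

theorem conj_mul_le (v : CStarMatrix κ ι A) :
    v.conjTranspose * v ≤ (‖v‖ ^ 2) • (1 : CStarMatrix ι ι A) := by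
  have h0 : 0 ≤ v.conjTranspose * v := cm_conj_mul_nonneg v
  have h1 : v.conjTranspose * v ≤ algebraMap ℝ (CStarMatrix ι ι A) ‖v.conjTranspose * v‖ :=
    (IsSelfAdjoint.of_nonneg h0).le_algebraMap_norm_self
  rw [Algebra.algebraMap_eq_smul_one] at h1
  refine h1.trans ?_
  have h2 : ‖v.conjTranspose * v‖ ≤ ‖v‖ ^ 2 := by
    refine (cm_norm_mul_le _ _).trans ?_
    rw [cm_norm_conj, pow_two]
  have h3 : 0 ≤ (‖v‖ ^ 2 - ‖v.conjTranspose * v‖) • (1 : CStarMatrix ι ι A) :=
    smul_nonneg (by linarith) (by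
      have := mul_star_self_nonneg (1 : CStarMatrix ι ι A)
      rwa [star_one, mul_one] at this)
  rw [sub_smul] at h3
  exact sub_nonneg.1 h3

theorem cu_sq' {s : CStarMatrix κ κ A} (hs : 0 ≤ s) : Cu (s * s) s := by
  have h1 := CutDown.cu_conj (cfc Real.sqrt s) s
  have h2 : (cfc Real.sqrt s : CStarMatrix κ κ A).conjTranspose = cfc Real.sqrt s :=
    conj_self (cfc_predicate _ _)
  have h3 : (cfc Real.sqrt s : CStarMatrix κ κ A) * cfc Real.sqrt s = s :=
    CutDown.sqrt_mul_self' hs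
  have h4 : (cfc Real.sqrt s : CStarMatrix κ κ A) * s *
      (cfc Real.sqrt s : CStarMatrix κ κ A).conjTranspose = s * s := by
    rw [h2]
    calc (cfc Real.sqrt s : CStarMatrix κ κ A) * s * cfc Real.sqrt s
        = cfc Real.sqrt s * (cfc Real.sqrt s * cfc Real.sqrt s) * cfc Real.sqrt s := by rw [h3]
      _ = (cfc Real.sqrt s * cfc Real.sqrt s) * (cfc Real.sqrt s * cfc Real.sqrt s) := by
          simp only [mul_assoc]
      _ = s * s := by rw [h3]
  rwa [h4] at h1

theorem tm_add (φ : TState A) (h k : CStarMatrix ι ι A) :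
    tm φ (h + k) = tm φ h + tm φ k := by
  unfold tm
  rw [← Finset.sum_add_distrib]
  refine Finset.sum_congr rfl fun i _ => ?_
  have : (h + k) i i = h i i + k i i := rfl
  rw [this, map_add, Complex.add_re]

theorem t (hRk : RkSP.{u}) (hIns : InsP.{u}) (hPos : PosP.{u}) (hMo : QMonoP.{u}) :
    StpP.{u} := by
  intro A _ _ _ ι κ ν _ _ _ _ _ _ a q P b s e r hq hqa hs hsb he hr hd hS hP x ε hε
  obtain ⟨Y, F', h, hYF, h0, hPle, hφ⟩ := hP (ε / 4) (by positivity)
  have hqs : q.conjTranspose = q := conj_self (IsSelfAdjoint.of_nonneg hq)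
  have hss : s.conjTranspose = s := conj_self (IsSelfAdjoint.of_nonneg hs)
  set F : CStarMatrix κ ι A := s * Y with hF
  set S : CStarMatrix κ κ A := F * F.conjTranspose with hSdef
  have hS0 : 0 ≤ S := cm_mul_conj_nonneg F
  have ha0 : 0 ≤ a := by
    have := cm_mul_conj_nonneg q
    rwa [hqs, hqa] at this
  have hb0 : 0 ≤ b := by
    have := cm_mul_conj_nonneg s
    rwa [hss, hsb] at this
  have hSa : S = F' * a * F'.conjTranspose := by
    rw [hSdef, hYF, cm_conj_mul, hqs, ← hqa]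
    simp only [cm_assoc]
  have hdimS : ∀ σ : QTrace A, σ.dim S ≤ σ.dim a := fun σ => by
    refine hMo A σ κ ι S a hS0 ha0 ?_
    rw [hSa]
    exact CutDown.cu_conj F' a
  set δ : ℝ := ε / 16 with hδdef
  have hδ : 0 < δ := by positivity
  set N : CStarMatrix κ κ A := nE δ S with hN
  have hNs : N.conjTranspose = N := conj_self (cfc_predicate (R := ℝ) _ S)
  set c : CStarMatrix κ κ A := N * s with hc
  have hcc : c.conjTranspose * c = s * (N * N) * s := by
    rw [hc, cm_conj_mul, hNs, hss]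
    simp only [mul_assoc]
  obtain ⟨hpos, hrk⟩ := hRk A κ s S δ hs hS0 hδ
  have hcr : ∀ σ : QTrace A, r < σ.dim (c.conjTranspose * c) := fun σ => by
    rw [hcc]
    have h1 := hrk σ
    have h2 := hdimS σ
    have h3 := hd σ
    have h4 : σ.dim b ≤ σ.dim s := by
      refine hMo A σ κ κ b s hb0 hs ?_
      rw [← hsb]
      exact cu_sq' hs
    linarith
  set v : CStarMatrix ν ι A := x * q with hv
  have hL : 0 ≤ ‖v‖ ^ 2 := by positivity
  set ε₁ : ℝ := ε / (4 * (1 + ‖v‖ ^ 2)) with hε₁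
  have hε₁0 : 0 < ε₁ := by positivity
  have hε₁v : ‖v‖ ^ 2 * ε₁ ≤ ε / 4 := by
    rw [hε₁, mul_div_assoc', div_le_div_iff₀ (by positivity) (by norm_num)]
    nlinarith
  obtain ⟨Y₁, h₁, h₁0, hle₁, hφ₁⟩ := hS c hcr ε₁ hε₁0
  have hvv := conj_mul_le v
  have hTsa : IsSelfAdjoint (v.conjTranspose * h₁ * v) :=
    IsSelfAdjoint.of_nonneg (cm_conj_nonneg' v h₁0)
  obtain ⟨h₂, h₂0, hTh, hφ₂⟩ := hPos A ι ν _ hTsa
  have hins := hIns A κ ι ν F (s * Y₁) v δ hδ
  rw [← hSdef, ← hN] at hins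
  set g : CStarMatrix κ ι A := N * (s * Y₁) * v with hg
  set R' : CStarMatrix κ κ A := cfc (fun t : ℝ => 1 / max t δ) S with hR'
  have hNform : N = 1 - S * R' := Pert.E_form hδ (IsSelfAdjoint.of_nonneg hS0)
  set W : CStarMatrix κ κ A := 1 - Y * F.conjTranspose * R' * s with hW
  have hNs2 : N * s = s * W := by
    rw [hNform, hW, sub_mul, one_mul, mul_sub, mul_one]
    congr 1
    have : S = s * (Y * F.conjTranspose) := by
      rw [hSdef, hF, cm_assoc]
    rw [this]
    simp only [mul_assoc]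
  refine ⟨Y + Real.sqrt 2 • (W * Y₁ * v), F' + Real.sqrt 2 • (N * (s * Y₁) * x), h + h₂,
    ?_, add_nonneg h0 h₂0, ?_, ?_⟩
  · rw [Pert.cm_mul_add, Pert.cm_add_mul, cm_mul_rsmul, cm_rsmul_mul, ← hF, hYF]
    congr 2
    have : s * (W * Y₁ * v) = (s * W) * Y₁ * v := by
      simp only [cm_assoc]
    rw [this, ← hNs2, hv]
    simp only [cm_assoc]
  · have hnew : s * (Y + Real.sqrt 2 • (W * Y₁ * v)) = F + Real.sqrt 2 • g := by
      rw [Pert.cm_mul_add, cm_mul_rsmul, ← hF]
      congr 2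
      have : s * (W * Y₁ * v) = (s * W) * Y₁ * v := by
        simp only [cm_assoc]
      rw [this, ← hNs2, hg]
      simp only [cm_assoc]
    rw [hnew]
    have hgc : c * Y₁ * v = g := by
      rw [hg, hc]
      simp only [cm_assoc]
    have e1 : v.conjTranspose * e * v ≤ g.conjTranspose * g + h₂ +
        (ε / 4) • (1 : CStarMatrix ι ι A) := by
      have k1 := cm_conj_le' v hle₁
      have k2 : v.conjTranspose * ((c * Y₁).conjTranspose * (c * Y₁) + h₁ +
          ε₁ • (1 : CStarMatrix ν ν A)) * v = g.conjTranspose * g +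
          v.conjTranspose * h₁ * v + ε₁ • (v.conjTranspose * v) := by
        rw [Pert.cm_mul_add, Pert.cm_mul_add, Pert.cm_add_mul, Pert.cm_add_mul, cm_mul_rsmul,
          cm_rsmul_mul, cm_mul_one, ← hgc, cm_conj_mul (c * Y₁) v]
        simp only [cm_assoc]
      rw [k2] at k1
      refine k1.trans ?_
      refine add_le_add (add_le_add le_rfl hTh) ?_
      have k3 : ε₁ • (v.conjTranspose * v) ≤ ε₁ • ((‖v‖ ^ 2) • (1 : CStarMatrix ι ι A)) :=
        smul_le_smul_of_nonneg_left hvv hε₁0.le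
      refine k3.trans ?_
      rw [smul_smul]
      have k4 : ε₁ * ‖v‖ ^ 2 ≤ ε / 4 := by rw [mul_comm]; exact hε₁v
      exact smul_le_smul_of_nonneg_right k4 zero_le_one
    have e2 : P + v.conjTranspose * e * v ≤ (F.conjTranspose * F + h +
        (ε / 4) • (1 : CStarMatrix ι ι A)) + (g.conjTranspose * g + h₂ +
        (ε / 4) • (1 : CStarMatrix ι ι A)) := add_le_add hPle e1
    refine e2.trans ?_
    have e3 : (F.conjTranspose * F + h + (ε / 4) • (1 : CStarMatrix ι ι A)) +
        (g.conjTranspose * g + h₂ + (ε / 4) • (1 : CStarMatrix ι ι A)) =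
        (F.conjTranspose * F + g.conjTranspose * g) + (h + h₂) +
        (ε / 2) • (1 : CStarMatrix ι ι A) := by
      have : (ε / 2) • (1 : CStarMatrix ι ι A) = (ε / 4) • (1 : CStarMatrix ι ι A) +
          (ε / 4) • (1 : CStarMatrix ι ι A) := by
        rw [← add_smul]; congr 1; ring
      rw [this]
      abel
    rw [e3]
    have e4 : (F.conjTranspose * F + g.conjTranspose * g) + (h + h₂) +
        (ε / 2) • (1 : CStarMatrix ι ι A) ≤
        ((F + Real.sqrt 2 • g).conjTranspose * (F + Real.sqrt 2 • g) +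
          (4 * δ) • (1 : CStarMatrix ι ι A)) + (h + h₂) +
        (ε / 2) • (1 : CStarMatrix ι ι A) :=
      add_le_add (add_le_add hins le_rfl) le_rfl
    refine e4.trans ?_
    have e5 : ((F + Real.sqrt 2 • g).conjTranspose * (F + Real.sqrt 2 • g) +
          (4 * δ) • (1 : CStarMatrix ι ι A)) + (h + h₂) +
        (ε / 2) • (1 : CStarMatrix ι ι A) =
        (F + Real.sqrt 2 • g).conjTranspose * (F + Real.sqrt 2 • g) + (h + h₂) +
        (3 * ε / 4) • (1 : CStarMatrix ι ι A) := by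
      have : (3 * ε / 4) • (1 : CStarMatrix ι ι A) = (4 * δ) • (1 : CStarMatrix ι ι A) +
          (ε / 2) • (1 : CStarMatrix ι ι A) := by
        rw [← add_smul]; congr 1; rw [hδdef]; ring
      rw [this]
      abel
    rw [e5]
    refine add_le_add le_rfl ?_
    exact smul_le_smul_of_nonneg_right (by linarith) zero_le_one
  · intro φ
    rw [tm_add]
    have h3 := hφ φ
    have h4 := hφ₂ φ v h₁ (‖v‖ ^ 2) hL h₁0 hvv le_rfl
    have h5 := hφ₁ φ
    have h6 : ‖v‖ ^ 2 * tm φ h₁ ≤ ‖v‖ ^ 2 * ε₁ := mul_le_mul_of_nonneg_left h5 hL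
    linarith

end Pool.Agent.Helper71.RC2.STP
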